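import Pool.Agent.Work.MP_974ce4_co.Lower

/-!
# Q1 of MP_974ce4_co: no universal constant for clique-width

For every real `c` there is a `k ≥ 1`, at most `18 |c| + 30`, such that the class of all graphs
of clique-width at most `k` has no adjacency labelling scheme of size `(c + o(1)) log n`.
This is the negated form of Q1.

The graphs used are the following.  Take a complete binary tree of depth `h`, put `m` vertices
at every leaf and a relation on `Fin m` at every internal node; two vertices, with indices
`i` and `j`, at two different leaves are adjacent iff the relation at the lowest common ancestor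
holds for `(i, j)`.  The clique-width is at most `2 m`.
A labelling scheme turns the leaves into elements of a set `W` of size `2 ^ ((L + 1) m)` with a
function `D` on pairs, which hosts all trees labelled by `2 ^ (m ^ 2)` labels, and
`exists_not_emb` says that such a host has at least `2 ^ (c m ^ 2 h)` elements.
-/

namespace Pool.Agent.Results.MP_974ce4_co.NoUniformConstantCliqueWidth

open Pool.Agent.Work.MP_974ce4_co Filter

theorem result : ∀ c : ℝ, ∃ k : ℕ, 1 ≤ k ∧ (k : ℝ) ≤ 18 * |c| + 30 ∧
    ¬ ∃ ε : ℕ → ℝ, Tendsto ε atTop (nhds 0) ∧
      HasAdjLabeling (fun _ G => CliqueWidthLE k G) (fun n => (c + ε n) * Real.logb 2 n) := by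
  intro c
  obtain ⟨a, ha, ha', hno⟩ := no_uniform_constant c
  refine ⟨3 * a + 3 * a, by omega, ?_, hno⟩
  push_cast
  linarith

end Pool.Agent.Results.MP_974ce4_co.NoUniformConstantCliqueWidth
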