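import Pool.Agent.Work.MP_974ce4_co.Lower
import Pool.Agent.Work.MP_974ce4_co.TwinWidth

/-!
# Q2 of MP_974ce4_co: no universal constant for twin-width

For every real `c` there is a `k ≥ 1`, at most `36 |c| + 60`, such that the class of all graphs
of twin-width at most `k` has no adjacency labelling scheme of size `(c + o(1)) log n`.
This is the negated form of Q2.  The proof combines the lower bound for clique-width with the
fact, proved in `Pool.Agent.Work.MP_974ce4_co.TwinWidth`, that graphs of clique-width at most `k`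
have twin-width at most `2 k`.
-/

namespace Pool.Agent.Results.MP_974ce4_co.NoUniformConstantTwinWidth

open Pool.Agent.Work.MP_974ce4_co Filter

theorem result : ∀ c : ℝ, ∃ k : ℕ, 1 ≤ k ∧ (k : ℝ) ≤ 36 * |c| + 60 ∧
    ¬ ∃ ε : ℕ → ℝ, Tendsto ε atTop (nhds 0) ∧
      HasAdjLabeling (fun _ G => TwinWidthLE k G) (fun n => (c + ε n) * Real.logb 2 n) := by
  intro c
  obtain ⟨a, ha, ha', hno⟩ := no_uniform_constant c
  refine ⟨2 * (3 * a + 3 * a), by omega, ?_, ?_⟩
  · push_cast
    linarith
  · rintro ⟨ε, hε, D, hD⟩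
    exact hno ⟨ε, hε, D, fun V _ G hG => hD V G hG.twinWidthLE⟩

end Pool.Agent.Results.MP_974ce4_co.NoUniformConstantTwinWidth
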